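import Pool.Agent.W2helper83.BT.Defs6
import Pool.Agent.W2helper92.BT2.Loc

set_option autoImplicit false

/-!
# Project BT6, piece LOCMG: good places of bicritical maps
-/

namespace Pool.Agent.W2helper66.BT

open Pool.Agent.W2helper83.BT Pool.Agent.W2helper92.BT2

variable {K Γ : Type} [Field K] [LinearOrderedCommGroupWithZero Γ]

lemma FM_smul (d : ℕ) (α β γ δ t : K) (P : K × K) :
    FM d α β γ δ (t • P) = t ^ d • FM d α β γ δ P := by
  unfold FM
  ext
  · simp only [Prod.smul_fst, Prod.smul_snd, smul_eq_mul]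
    ring
  · simp only [Prod.smul_fst, Prod.smul_snd, smul_eq_mul]
    ring

lemma FM_iter_smul (d : ℕ) (α β γ δ : K) (P : K × K) (n : ℕ) :
    ∀ t : K, (FM d α β γ δ)^[n] (t • P) = t ^ (d ^ n) • (FM d α β γ δ)^[n] P := by
  induction n with
  | zero => intro t; simp
  | succ n ih =>
    intro t
    rw [Function.iterate_succ_apply', Function.iterate_succ_apply', ih, FM_smul, ← pow_mul,
      pow_succ]

lemma FM_mul (d : ℕ) (α β γ δ : K) (P : K × K) (n : ℕ) {t : K} (ht : t ≠ 0)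
    (h : (FM d α β γ δ)^[n] P = t • P) (k : ℕ) :
    ∃ s : K, s ≠ 0 ∧ (FM d α β γ δ)^[n * k] P = s • P := by
  induction k with
  | zero => exact ⟨1, one_ne_zero, by simp⟩
  | succ k ih =>
    obtain ⟨s, hs, hk⟩ := ih
    refine ⟨s ^ (d ^ n) * t, mul_ne_zero (pow_ne_zero _ hs) ht, ?_⟩
    rw [Nat.mul_succ, Nat.add_comm, Function.iterate_add_apply, hk, FM_iter_smul, h, smul_smul]

lemma FM_nn (w : Valuation K Γ) {d : ℕ} {α β γ δ : K} (h1 : w α ≤ 1) (h2 : w β ≤ 1)
    (h3 : w γ ≤ 1) (h4 : w δ ≤ 1) (hD : w (α * δ - β * γ) = 1) (P : K × K) :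
    nn w (FM d α β γ δ P) = nn w P ^ d := by
  have hp1 : w P.1 ^ d ≤ nn w P ^ d := pow_le_pow_left₀ zero_le (le_max_left _ _) d
  have hp2 : w P.2 ^ d ≤ nn w P ^ d := pow_le_pow_left₀ zero_le (le_max_right _ _) d
  have comb : ∀ a b X Y : K, w a ≤ 1 → w b ≤ 1 → ∀ M : Γ, w X ≤ M → w Y ≤ M →
      w (a * X + b * Y) ≤ M := by
    intro a b X Y ha hb M hX hY
    refine (w.map_add _ _).trans (max_le ?_ ?_)
    · rw [map_mul]
      calc w a * w X ≤ 1 * M := mul_le_mul' ha hX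
        _ = M := one_mul M
    · rw [map_mul]
      calc w b * w Y ≤ 1 * M := mul_le_mul' hb hY
        _ = M := one_mul M
  apply le_antisymm
  · refine max_le ?_ ?_
    · exact comb α β _ _ h1 h2 _ (by rw [map_pow]; exact hp1) (by rw [map_pow]; exact hp2)
    · exact comb γ δ _ _ h3 h4 _ (by rw [map_pow]; exact hp1) (by rw [map_pow]; exact hp2)
  · have l1 : w (FM d α β γ δ P).1 ≤ nn w (FM d α β γ δ P) := le_max_left _ _
    have l2 : w (FM d α β γ δ P).2 ≤ nn w (FM d α β γ δ P) := le_max_right _ _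
    have e1 : w P.1 ^ d ≤ nn w (FM d α β γ δ P) := by
      have e : (α * δ - β * γ) * P.1 ^ d = δ * (FM d α β γ δ P).1 + (-β) * (FM d α β γ δ P).2 := by
        simp only [FM]
        ring
      have := comb δ (-β) _ _ h4 (by rw [Valuation.map_neg]; exact h2) _ l1 l2
      rw [← e, map_mul, hD, one_mul, map_pow] at this
      exact this
    have e2 : w P.2 ^ d ≤ nn w (FM d α β γ δ P) := by
      have e : (α * δ - β * γ) * P.2 ^ d = (-γ) * (FM d α β γ δ P).1 + α * (FM d α β γ δ P).2 := by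
        simp only [FM]
        ring
      have := comb (-γ) α _ _ (by rw [Valuation.map_neg]; exact h3) h1 _ l1 l2
      rw [← e, map_mul, hD, one_mul, map_pow] at this
      exact this
    rcases le_total (w P.1) (w P.2) with h | h
    · have : nn w P = w P.2 := max_eq_right h
      rw [this]; exact e2
    · have : nn w P = w P.1 := max_eq_left h
      rw [this]; exact e1

theorem locmg : LOCMG := by
  intro K Γ _ _ w d α β γ δ x y ζ₁ ζ₂ hd hwd hz hD hPrim hx hy hxy h1 h1' h2 h2' hne1 hne2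
  obtain ⟨z, hz⟩ := hz
  obtain ⟨n, hn, t, ht, hxn⟩ := hx
  obtain ⟨m, hm, s, hs, hym⟩ := hy
  obtain ⟨⟨hα, hβ, hγ, hδ⟩, -, -, -⟩ := hPrim
  obtain ⟨t', ht', hx'⟩ := FM_mul d α β γ δ (x, 1) n ht hxn m
  obtain ⟨s', hs', hy'⟩ := FM_mul d α β γ δ (y, 1) m hs hym n
  rw [Nat.mul_comm] at hy'
  have hg : ∀ ζ : K, ζ ^ d = 1 → ζ ≠ 1 → w (x - ζ * y) = nn w (x, 1) * nn w (y, 1) := by
    intro ζ hζ hζ1
    have := good (w := w) hd hz (F := FM d α β γ δ)
      (by
        intro P Q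
        have e : (FM d α β γ δ P).1 * (FM d α β γ δ Q).2 - (FM d α β γ δ Q).1 * (FM d α β γ δ P).2
            = (α * δ - β * γ) * ((P.1 * Q.2) ^ d - (Q.1 * P.2) ^ d) := by
          simp only [FM]
          rw [mul_pow, mul_pow]
          ring
        rw [e, map_mul, hD, one_mul])
      (fun P => FM_nn w hα hβ hγ hδ hD P) (Nat.mul_pos hn hm) (P := (x, 1)) (Q := (y, 1))
      (t := t') (s := s') (by simpa using sub_ne_zero.2 hxy) ht' hs' hx' hy' hζ hζ1
    simpa using this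
  rw [map_div₀, hg ζ₁ h1 h1', hg ζ₂ h2 h2', div_self]
  rw [← hg ζ₁ h1 h1']
  exact (w.ne_zero_iff).2 hne1

end Pool.Agent.W2helper66.BT
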